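import Pool.Agent.Q238.SD.Cayley

/-!
# The Legendre symbol of the square root of `det [(j² - k²) ((j² - k²)/p)]`

For every prime `p ≡ 1 (mod 4)` the determinant is the square of an integer, and every integer `s`
with `s² = D_p^{(1)}` has `(s/p) = (-1)^{N(p)} (p/3)`.

Idea of the proof: modulo `p` the entries are `(x - y)^{n+1}`, `n = (p-1)/2`, with `x, y` running over
the `n`-th roots of unity `1², …, n²`. Pairing the monomials `x^i y^{n+1-i}` gives
`D ≡ (V (n+2) ∏_{i=2}^{n/2} C(n+1, i))²` with the Vandermonde determinant `V`; the quadratic symbols of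
`V` and of the binomial coefficients are computed with Wilson's theorem and superfactorials.
-/

set_option autoImplicit false

namespace Pool.Agent.Results.MP_6c59e0_nt.SqrtSymbolOne

open Q238.SD

/-- The full answer: `D_p^{(1)}` is a perfect square and its square roots have the symbol
`(-1)^{N(p)} (p/3)`. -/
theorem result (p : ℕ) [Fact p.Prime] (hp : p % 4 = 1) :
    (∃ s : ℤ, s ^ 2 = sqDet p 1 ((p - 1) / 2)) ∧
      ∀ s : ℤ, s ^ 2 = sqDet p 1 ((p - 1) / 2) →
        legendreSym p s = (-1) ^ countN p * legendreSym 3 p :=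
  ⟨exists_sqrt p hp 0 _, fun s hs => final_one hp s hs⟩

end Pool.Agent.Results.MP_6c59e0_nt.SqrtSymbolOne
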